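import Pool.Agent.Helper26_ABCT.Ev

/-!
# CPOS: real points of the variety with positive coordinates
-/

open MvPolynomial Topology

namespace PosGeom.H26

section

variable {ι : Type} [Fintype ι] {d : ℕ}

omit [Fintype ι] in
/-- the points of the cell are points of the variety -/
theorem cell_eq (N : NCell ι d) {z : ι → ℝ} {τ : ℝ} {x : Fin d → ℝ}
    (hz : ∀ i, z i = τ * evN x (N.L i)) {F : MvPolynomial ι ℂ} (hF : F ∈ N.var.I) :
    aeval (fun i => ((z i : ℝ) : ℂ)) F = 0 := by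
  have hF' : N.hom F = 0 := hF
  set φ : Polynomial (MvPolynomial (Fin d) ℂ) →+* ℂ :=
    Polynomial.eval₂RingHom (aeval (fun j => ((x j : ℝ) : ℂ)) :
      MvPolynomial (Fin d) ℂ →ₐ[ℂ] ℂ).toRingHom (τ : ℂ) with hφ
  have h1 := congrArg φ hF'
  rw [map_zero] at h1
  rw [← h1]
  unfold NCell.hom
  have h2 := map_aeval (fun i => Polynomial.X *
    Polynomial.C (evN (fun j => (X j : MvPolynomial (Fin d) ℂ)) (N.L i))) φ F
  rw [h2, aeval_def]
  have h3 : φ.comp (algebraMap ℂ (Polynomial (MvPolynomial (Fin d) ℂ))) = algebraMap ℂ ℂ := by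
    apply RingHom.ext
    intro c
    rw [RingHom.comp_apply, Polynomial.algebraMap_apply, hφ, Polynomial.coe_eval₂RingHom,
      Polynomial.eval₂_C]
    simp
  rw [h3]
  show eval₂ _ _ _ = eval₂ _ _ _
  congr 1
  funext i
  rw [hφ, Polynomial.coe_eval₂RingHom, Polynomial.eval₂_mul, Polynomial.eval₂_X,
    Polynomial.eval₂_C]
  have h4 : (aeval (fun j => ((x j : ℝ) : ℂ)) : MvPolynomial (Fin d) ℂ →ₐ[ℂ] ℂ).toRingHom
      (evN (fun j => (X j : MvPolynomial (Fin d) ℂ)) (N.L i)) = ((evN x (N.L i) : ℝ) : ℂ) := by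
    rw [evN_map]
    have h5 := evN_map Complex.ofRealHom x (N.L i)
    have h6 : ((evN x (N.L i) : ℝ) : ℂ) = Complex.ofRealHom (evN x (N.L i)) := rfl
    rw [h6, h5]
    congr 1
    funext j
    simp
  rw [h4, hz i]
  push_cast
  rfl

omit [Fintype ι] in
theorem X_mem (N : NCell ι d) {i : ι} (hi : i ∉ N.M) : (X i : MvPolynomial ι ℂ) ∈ N.var.I := by
  have h0 : N.L i = 0 := by
    by_contra h
    exact hi h
  show N.hom (X i) = 0
  unfold NCell.hom
  rw [aeval_X, h0]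
  have : evN (fun j => (X j : MvPolynomial (Fin d) ℂ)) (0 : MvPolynomial (Fin d) ℕ) = 0 := by
    unfold evN
    rw [eval₂_zero]
  rw [this, map_zero, mul_zero]

/-- values of elements of `Fd d` at a point of the variety -/
def EvZ (N : NCell ι d) (ζ : ι → ℂ) (f : Fd d) (a : ℂ) : Prop :=
  ∃ (n : ℕ) (F G : MvPolynomial ι ℂ), F.IsHomogeneous n ∧ G.IsHomogeneous n ∧
    aeval ζ G ≠ 0 ∧ f * aeval N.LF G = aeval N.LF F ∧ a * aeval ζ G = aeval ζ F

variable {N : NCell ι d} {ζ : ι → ℂ}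

/-- `ζ` is a point of the variety -/
def PtZ (N : NCell ι d) (ζ : ι → ℂ) : Prop :=
  ∀ (F : MvPolynomial ι ℂ) (n : ℕ), F.IsHomogeneous n → aeval N.LF F = 0 → aeval ζ F = 0

omit [Fintype ι] in
theorem EvZ.unique (hP : PtZ N ζ) {f : Fd d} {a b : ℂ} (ha : EvZ N ζ f a) (hb : EvZ N ζ f b) :
    a = b := by
  obtain ⟨n, F, G, hF, hG, hG0, e, ea⟩ := ha
  obtain ⟨n', F', G', hF', hG', hG0', e', eb⟩ := hb
  have h1 : aeval ζ (F * G' - F' * G) = 0 := by
    apply hP _ (n + n')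
    · refine (hF.mul hG').sub ?_
      rw [add_comm]
      exact hF'.mul hG
    · rw [map_sub, map_mul, map_mul, ← e, ← e']
      ring
  rw [map_sub, map_mul, map_mul, ← ea, ← eb] at h1
  have h3 : (a - b) * (aeval ζ G * aeval ζ G') = 0 := by
    rw [← h1]; ring
  rcases mul_eq_zero.1 h3 with h | h
  · exact sub_eq_zero.1 h
  · exact absurd h (mul_ne_zero hG0 hG0')

omit [Fintype ι] in
theorem EvZ.add {f g : Fd d} {a b : ℂ} (ha : EvZ N ζ f a) (hb : EvZ N ζ g b) :
    EvZ N ζ (f + g) (a + b) := by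
  obtain ⟨n, F, G, hF, hG, hG0, e, ea⟩ := ha
  obtain ⟨n', F', G', hF', hG', hG0', e', eb⟩ := hb
  refine ⟨n + n', F * G' + F' * G, G * G', ?_, hG.mul hG', ?_, ?_, ?_⟩
  · refine (hF.mul hG').add ?_
    rw [add_comm]
    exact hF'.mul hG
  · rw [map_mul]; exact mul_ne_zero hG0 hG0'
  · simp only [map_mul, map_add]
    rw [← e, ← e']
    ring
  · simp only [map_mul, map_add]
    rw [← ea, ← eb]
    ring

omit [Fintype ι] in
theorem EvZ.mul {f g : Fd d} {a b : ℂ} (ha : EvZ N ζ f a) (hb : EvZ N ζ g b) :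
    EvZ N ζ (f * g) (a * b) := by
  obtain ⟨n, F, G, hF, hG, hG0, e, ea⟩ := ha
  obtain ⟨n', F', G', hF', hG', hG0', e', eb⟩ := hb
  refine ⟨n + n', F * F', G * G', hF.mul hF', hG.mul hG', ?_, ?_, ?_⟩
  · rw [map_mul]; exact mul_ne_zero hG0 hG0'
  · simp only [map_mul]
    rw [← e, ← e']
    ring
  · simp only [map_mul]
    rw [← ea, ← eb]
    ring

omit [Fintype ι] in
theorem EvZ.inv (hP : PtZ N ζ) {f : Fd d} {a : ℂ} (ha : EvZ N ζ f a) (h : a ≠ 0) :
    EvZ N ζ f⁻¹ a⁻¹ := by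
  obtain ⟨n, F, G, hF, hG, hG0, e, ea⟩ := ha
  have hF0 : aeval ζ F ≠ 0 := by rw [← ea]; exact mul_ne_zero h hG0
  refine ⟨n, G, F, hG, hF, hF0, ?_, ?_⟩
  · have hf : f ≠ 0 := by
      rintro rfl
      rw [zero_mul] at e
      exact hF0 (hP F n hF e.symm)
    rw [← e, inv_mul_cancel_left₀ hf]
  · rw [← ea, inv_mul_cancel_left₀ h]

omit [Fintype ι] in
theorem EvZ.nat (n : ℕ) : EvZ N ζ (n : Fd d) n := by
  refine ⟨0, C (n : ℂ), 1, isHomogeneous_C _ _, isHomogeneous_one _ _, ?_, ?_, ?_⟩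
  · rw [map_one]; exact one_ne_zero
  · rw [map_one, mul_one, aeval_C, map_natCast]
  · rw [map_one, mul_one, aeval_C, map_natCast]

omit [Fintype ι] in
theorem EvZ.pow {f : Fd d} {a : ℂ} (ha : EvZ N ζ f a) (n : ℕ) : EvZ N ζ (f ^ n) (a ^ n) := by
  induction n with
  | zero =>
    rw [pow_zero, pow_zero]
    have := EvZ.nat (N := N) (ζ := ζ) 1
    simpa using this
  | succ n ih => rw [pow_succ, pow_succ]; exact ih.mul ha

omit [Fintype ι] in
theorem EvZ.zpow (hP : PtZ N ζ) {f : Fd d} {a : ℂ} (ha : EvZ N ζ f a) (h : a ≠ 0) (n : ℤ) :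
    EvZ N ζ (f ^ n) (a ^ n) := by
  rcases Int.eq_nat_or_neg n with ⟨m, rfl | rfl⟩
  · rw [zpow_natCast, zpow_natCast]; exact ha.pow m
  · rw [zpow_neg, zpow_neg, zpow_natCast, zpow_natCast]
    exact (ha.pow m).inv hP (pow_ne_zero m h)

omit [Fintype ι] in
theorem EvZ.prod {κ : Type} (s : Finset κ) {f : κ → Fd d} {a : κ → ℂ}
    (h : ∀ k ∈ s, EvZ N ζ (f k) (a k)) : EvZ N ζ (∏ k ∈ s, f k) (∏ k ∈ s, a k) := by
  classical
  induction s using Finset.induction_on with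
  | empty =>
    rw [Finset.prod_empty, Finset.prod_empty]
    have := EvZ.nat (N := N) (ζ := ζ) 1
    simpa using this
  | insert k s hk ih =>
    rw [Finset.prod_insert hk, Finset.prod_insert hk]
    exact (h k (Finset.mem_insert_self _ _)).mul
      (ih fun l hl => h l (Finset.mem_insert_of_mem hl))

omit [Fintype ι] in
theorem EvZ.evN {σ : Type} {g : σ → Fd d} {b : σ → ℂ} (h : ∀ i, EvZ N ζ (g i) (b i))
    (p : MvPolynomial σ ℕ) : EvZ N ζ (PosGeom.evN g p) (PosGeom.evN b p) := by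
  unfold PosGeom.evN
  induction p using MvPolynomial.induction_on with
  | C n =>
    rw [eval₂_C, eval₂_C]
    exact EvZ.nat n
  | add p q hp hq =>
    rw [eval₂_add, eval₂_add]
    exact hp.add hq
  | mul_X p i hp =>
    rw [eval₂_mul, eval₂_mul, eval₂_X, eval₂_X]
    exact hp.mul (h i)

omit [Fintype ι] in
theorem EvZ.ratio {i i₀ : ι} (h1 : N.LF i₀ ≠ 0) (h2 : ζ i₀ ≠ 0) :
    EvZ N ζ (N.LF i / N.LF i₀) (ζ i / ζ i₀) := by
  refine ⟨1, X i, X i₀, isHomogeneous_X _ _, isHomogeneous_X _ _, ?_, ?_, ?_⟩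
  · rw [aeval_X]; exact h2
  · rw [aeval_X, aeval_X, div_mul_cancel₀ _ h1]
  · rw [aeval_X, aeval_X, div_mul_cancel₀ _ h2]

theorem prod_ratio {K : Type} [Field K] (p : ι → K) {i₀ : ι} (h0 : p i₀ ≠ 0) (n : ι → ℤ)
    (hn : ∑ i, n i = 0) : ∏ i, (p i / p i₀) ^ n i = ∏ i, p i ^ n i := by
  have h1 : ∀ s : Finset ι, ∏ i ∈ s, p i₀ ^ n i = p i₀ ^ (∑ i ∈ s, n i) := by
    classical
    intro s
    induction s using Finset.induction_on with
    | empty => simp
    | insert a s ha ih => rw [Finset.prod_insert ha, Finset.sum_insert ha, zpow_add₀ h0, ih]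
  simp only [div_zpow]
  rw [Finset.prod_div_distrib, h1, hn, zpow_zero, div_one]

omit [Fintype ι] in
theorem LF_ne {i : ι} (hi : i ∈ N.M) : N.LF i ≠ 0 := by
  intro h0
  have h1 : Ev (fun _ => (1 : ℝ)) (N.LF i) (PosGeom.evN (fun _ : Fin d => (1 : ℝ)) (N.L i)) :=
    Ev.evN (fun j => Ev.var j) (N.L i)
  rw [h0] at h1
  have h2 := h1.unique Ev.zero
  have h3 := evN_pos (x := fun _ : Fin d => (1 : ℝ)) (fun _ => one_pos) (p := N.L i) hi
  rw [h2] at h3
  exact lt_irrefl _ h3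

end

theorem cpos (hCf : CfldStmt) : CposStmt := by
  intro ι _ d N hN
  have hM : ∀ i ∉ N.M, N.L i = 0 := fun i hi => by
    by_contra h
    exact hi h
  obtain ⟨i₀, hi₀⟩ := N.ne
  -- the three claims
  have h2 : ∀ z ∈ N.var.RP, ∀ i, i ∉ N.M → z i = 0 := by
    intro z hz i hi
    have := hz.2 (X i) (X_mem N hi)
    rw [aeval_X] at this
    exact_mod_cast this
  have h1 : ∀ z : ι → ℝ, z ∈ N.Z ↔ z ∈ N.var.RP ∧ ∀ i ∈ N.M, 0 < z i := by
    intro z
    constructor
    · rintro ⟨τ, x, hτ, hx, hz⟩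
      have hpos : ∀ i ∈ N.M, 0 < z i := fun i hi => by
        rw [hz i]
        exact mul_pos hτ (evN_pos hx hi)
      refine ⟨⟨?_, fun F hF => cell_eq N hz hF⟩, hpos⟩
      intro h0
      have := hpos i₀ hi₀
      rw [h0] at this
      exact lt_irrefl _ this
    · rintro ⟨hz, hpos⟩
      set ζ : ι → ℂ := fun i => ((z i : ℝ) : ℂ) with hζ
      have hP : PtZ N ζ := by
        intro F n hF h0
        exact hz.2 F (((hCf ι d N hN).2.2.2 F n hF).1 h0)
      have hz0 : ζ i₀ ≠ 0 := Complex.ofReal_ne_zero.2 (hpos i₀ hi₀).ne'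
      have hLF0 : N.LF i₀ ≠ 0 := LF_ne hi₀
      choose n hnM hnsum hneq using hN
      set x : Fin d → ℝ := fun j => ∏ i, z i ^ n j i with hx
      have hxpos : ∀ j, 0 < x j := by
        intro j
        apply Finset.prod_pos
        intro i _
        by_cases hi : i ∈ N.M
        · exact zpow_pos (hpos i hi) _
        · rw [hnM j i hi, zpow_zero]; exact one_pos
      have hyv : ∀ j, EvZ N ζ (yv d j) ((x j : ℝ) : ℂ) := by
        intro j
        rw [hneq j, ← prod_ratio N.LF hLF0 (n j) (hnsum j)]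
        have e : ((x j : ℝ) : ℂ) = ∏ i, (ζ i / ζ i₀) ^ n j i := by
          rw [prod_ratio ζ hz0 (n j) (hnsum j), hx]
          push_cast
          rfl
        rw [e]
        apply EvZ.prod
        intro i _
        by_cases hi : i ∈ N.M
        · refine (EvZ.ratio hLF0 hz0).zpow hP ?_ _
          exact div_ne_zero (Complex.ofReal_ne_zero.2 (hpos i hi).ne') hz0
        · rw [hnM j i hi, zpow_zero, zpow_zero]
          have := EvZ.nat (N := N) (ζ := ζ) 1
          simpa using this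
      have hL : ∀ i, EvZ N ζ (N.LF i) (evN (fun j => ((x j : ℝ) : ℂ)) (N.L i)) := fun i =>
        EvZ.evN hyv (N.L i)
      have hLr : ∀ i, evN (fun j => ((x j : ℝ) : ℂ)) (N.L i) = ((evN x (N.L i) : ℝ) : ℂ) := by
        intro i
        exact (evN_map Complex.ofRealHom x (N.L i)).symm
      have hid : ∀ i, evN x (N.L i) = z i / z i₀ * evN x (N.L i₀) := by
        intro i
        have e1 : EvZ N ζ (N.LF i / N.LF i₀ * N.LF i₀)
            (ζ i / ζ i₀ * evN (fun j => ((x j : ℝ) : ℂ)) (N.L i₀)) :=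
          (EvZ.ratio hLF0 hz0).mul (hL i₀)
        rw [div_mul_cancel₀ _ hLF0] at e1
        have e2 := (hL i).unique hP e1
        rw [hLr, hLr] at e2
        have e3 : ((evN x (N.L i) : ℝ) : ℂ) = ((z i / z i₀ * evN x (N.L i₀) : ℝ) : ℂ) := by
          rw [e2, hζ]
          push_cast
          rfl
        exact_mod_cast e3
      have hL0 : 0 < evN x (N.L i₀) := evN_pos hxpos hi₀
      refine ⟨z i₀ / evN x (N.L i₀), x, div_pos (hpos i₀ hi₀) hL0, hxpos, ?_⟩
      intro i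
      have hz0' : z i₀ ≠ 0 := (hpos i₀ hi₀).ne'
      rw [hid i]
      field_simp
  refine ⟨h1, h2, ?_⟩
  intro z hz hz0
  have hcl1 : ∀ F ∈ N.var.I, aeval (fun i => ((z i : ℝ) : ℂ)) F = 0 := by
    intro F hF
    have hcl : IsClosed {y : ι → ℝ | aeval (fun i => ((y i : ℝ) : ℂ)) F = 0} := by
      have hc : Continuous fun y : ι → ℝ => (aeval (fun i => ((y i : ℝ) : ℂ)) F : ℂ) := by
        have e : (fun y : ι → ℝ => (aeval (fun i => ((y i : ℝ) : ℂ)) F : ℂ)) =
            fun y : ι → ℝ => eval (fun i => ((y i : ℝ) : ℂ)) F := by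
          funext y
          rw [aeval_eq_eval]
        rw [e]
        exact (MvPolynomial.continuous_eval F).comp (by fun_prop)
      exact isClosed_eq hc continuous_const
    exact closure_minimal (fun y hy => ((h1 y).1 hy).1.2 F hF) hcl hz
  have hcl2 : ∀ i, 0 ≤ z i := by
    intro i
    have hcl : IsClosed {y : ι → ℝ | 0 ≤ y i} := isClosed_le continuous_const (continuous_apply i)
    refine closure_minimal ?_ hcl hz
    rintro y ⟨τ, x, hτ, hx, hy⟩
    show 0 ≤ y i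
    rw [hy i]
    exact mul_nonneg hτ.le (evN_nonneg (fun j => (hx j).le) _)
  exact ⟨⟨hz0, hcl1⟩, hcl2⟩

end PosGeom.H26
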