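import Pool.Agent.Helper93_ABCT.StmtI

/-!
# Evaluation of rational functions at real points
-/

open MvPolynomial Topology

namespace PosGeom.H26

/-- the rational function `f` is real and regular at `x`, with value `a` -/
def Ev {d : ℕ} (x : Fin d → ℝ) (f : Fd d) (a : ℝ) : Prop :=
  ∃ P Q : MvPolynomial (Fin d) ℝ, eval x Q ≠ 0 ∧
    f * algebraMap (MvPolynomial (Fin d) ℂ) (Fd d) (map Complex.ofRealHom Q) =
      algebraMap (MvPolynomial (Fin d) ℂ) (Fd d) (map Complex.ofRealHom P) ∧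
    a * eval x Q = eval x P

section

variable {d : ℕ} {x : Fin d → ℝ}

theorem alg_inj {P Q : MvPolynomial (Fin d) ℝ}
    (h : algebraMap (MvPolynomial (Fin d) ℂ) (Fd d) (map Complex.ofRealHom P) =
      algebraMap (MvPolynomial (Fin d) ℂ) (Fd d) (map Complex.ofRealHom Q)) : P = Q :=
  map_injective _ Complex.ofReal_injective (IsFractionRing.injective _ _ h)

theorem alg_ne {Q : MvPolynomial (Fin d) ℝ} (h : eval x Q ≠ 0) :
    algebraMap (MvPolynomial (Fin d) ℂ) (Fd d) (map Complex.ofRealHom Q) ≠ 0 := by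
  intro h0
  have : Q = 0 := by
    apply alg_inj
    rw [h0, map_zero, map_zero]
  rw [this, map_zero] at h
  exact h rfl

theorem Ev.unique {f : Fd d} {a b : ℝ} (ha : Ev x f a) (hb : Ev x f b) : a = b := by
  obtain ⟨P, Q, hQ, e, ea⟩ := ha
  obtain ⟨P', Q', hQ', e', eb⟩ := hb
  have h1 : P * Q' = P' * Q := by
    apply alg_inj
    rw [map_mul, map_mul, map_mul, map_mul, ← e, ← e']
    ring
  have h2 := congrArg (eval x) h1
  rw [map_mul, map_mul, ← ea, ← eb] at h2
  have h3 : a * (eval x Q * eval x Q') = b * (eval x Q * eval x Q') := by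
    rw [← mul_assoc, h2]; ring
  exact mul_right_cancel₀ (mul_ne_zero hQ hQ') h3

theorem Ev.add {f g : Fd d} {a b : ℝ} (ha : Ev x f a) (hb : Ev x g b) : Ev x (f + g) (a + b) := by
  obtain ⟨P, Q, hQ, e, ea⟩ := ha
  obtain ⟨P', Q', hQ', e', eb⟩ := hb
  refine ⟨P * Q' + P' * Q, Q * Q', ?_, ?_, ?_⟩
  · rw [map_mul]; exact mul_ne_zero hQ hQ'
  · simp only [map_mul, map_add]
    rw [← e, ← e']
    ring
  · simp only [map_mul, map_add]
    rw [← ea, ← eb]
    ring

theorem Ev.mul {f g : Fd d} {a b : ℝ} (ha : Ev x f a) (hb : Ev x g b) : Ev x (f * g) (a * b) := by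
  obtain ⟨P, Q, hQ, e, ea⟩ := ha
  obtain ⟨P', Q', hQ', e', eb⟩ := hb
  refine ⟨P * P', Q * Q', ?_, ?_, ?_⟩
  · rw [map_mul]; exact mul_ne_zero hQ hQ'
  · simp only [map_mul]
    rw [← e, ← e']
    ring
  · simp only [map_mul]
    rw [← ea, ← eb]
    ring

theorem Ev.inv {f : Fd d} {a : ℝ} (ha : Ev x f a) (h : a ≠ 0) : Ev x f⁻¹ a⁻¹ := by
  obtain ⟨P, Q, hQ, e, ea⟩ := ha
  have hP : eval x P ≠ 0 := by rw [← ea]; exact mul_ne_zero h hQ
  refine ⟨Q, P, hP, ?_, ?_⟩
  · have hf : f ≠ 0 := by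
      rintro rfl
      rw [zero_mul] at e
      exact alg_ne hP e.symm
    rw [← e, inv_mul_cancel_left₀ hf]
  · rw [← ea, inv_mul_cancel_left₀ h]

theorem Ev.nat (n : ℕ) : Ev x (n : Fd d) n := by
  refine ⟨(n : MvPolynomial (Fin d) ℝ), 1, ?_, ?_, ?_⟩
  · rw [map_one]; exact one_ne_zero
  · rw [map_one, map_one, mul_one, map_natCast, map_natCast]
  · rw [map_one, mul_one, map_natCast]

theorem Ev.zero : Ev x (0 : Fd d) 0 := by
  have := Ev.nat (x := x) 0
  simpa using this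

theorem Ev.one : Ev x (1 : Fd d) 1 := by
  have := Ev.nat (x := x) 1
  simpa using this

theorem Ev.var (j : Fin d) : Ev x (yv d j) (x j) := by
  refine ⟨X j, 1, ?_, ?_, ?_⟩
  · rw [map_one]; exact one_ne_zero
  · rw [map_one, map_one, mul_one, map_X]
    rfl
  · rw [map_one, mul_one, eval_X]

theorem Ev.pow {f : Fd d} {a : ℝ} (ha : Ev x f a) (n : ℕ) : Ev x (f ^ n) (a ^ n) := by
  induction n with
  | zero => rw [pow_zero, pow_zero]; exact Ev.one
  | succ n ih => rw [pow_succ, pow_succ]; exact ih.mul ha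

theorem Ev.zpow {f : Fd d} {a : ℝ} (ha : Ev x f a) (h : a ≠ 0) (n : ℤ) :
    Ev x (f ^ n) (a ^ n) := by
  rcases Int.eq_nat_or_neg n with ⟨m, rfl | rfl⟩
  · rw [zpow_natCast, zpow_natCast]; exact ha.pow m
  · rw [zpow_neg, zpow_neg, zpow_natCast, zpow_natCast]
    exact (ha.pow m).inv (pow_ne_zero m h)

theorem Ev.prod {κ : Type} (s : Finset κ) {f : κ → Fd d} {a : κ → ℝ}
    (h : ∀ k ∈ s, Ev x (f k) (a k)) : Ev x (∏ k ∈ s, f k) (∏ k ∈ s, a k) := by
  classical
  induction s using Finset.induction_on with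
  | empty => rw [Finset.prod_empty, Finset.prod_empty]; exact Ev.one
  | insert k s hk ih =>
    rw [Finset.prod_insert hk, Finset.prod_insert hk]
    exact (h k (Finset.mem_insert_self _ _)).mul
      (ih fun l hl => h l (Finset.mem_insert_of_mem hl))

theorem Ev.evN {σ : Type} {g : σ → Fd d} {b : σ → ℝ} (h : ∀ i, Ev x (g i) (b i))
    (p : MvPolynomial σ ℕ) : Ev x (evN g p) (evN b p) := by
  unfold PosGeom.evN
  induction p using MvPolynomial.induction_on with
  | C n =>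
    rw [eval₂_C, eval₂_C]
    exact Ev.nat n
  | add p q hp hq =>
    rw [eval₂_add, eval₂_add]
    exact hp.add hq
  | mul_X p i hp =>
    rw [eval₂_mul, eval₂_mul, eval₂_X, eval₂_X]
    exact hp.mul (h i)

end

/-! ### polynomials with natural coefficients -/

section

variable {σ : Type}

theorem evN_nonneg {x : σ → ℝ} (hx : ∀ i, 0 ≤ x i) (p : MvPolynomial σ ℕ) : 0 ≤ evN x p := by
  unfold evN
  rw [eval₂_eq]
  apply Finset.sum_nonneg
  intro μ _
  apply mul_nonneg
  · exact Nat.cast_nonneg _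
  · exact Finset.prod_nonneg fun i _ => pow_nonneg (hx i) _

/-- positivity at points which are positive on the support of one monomial -/
theorem evN_pos' {x : σ → ℝ} (hx : ∀ i, 0 ≤ x i) {p : MvPolynomial σ ℕ} {μ : σ →₀ ℕ}
    (hμ : μ ∈ p.support) (h : ∀ i ∈ μ.support, 0 < x i) : 0 < evN x p := by
  unfold evN
  rw [eval₂_eq]
  apply Finset.sum_pos'
  · intro ν _
    apply mul_nonneg
    · exact Nat.cast_nonneg _
    · exact Finset.prod_nonneg fun i _ => pow_nonneg (hx i) _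
  · refine ⟨μ, hμ, mul_pos ?_ ?_⟩
    · have : coeff μ p ≠ 0 := mem_support_iff.1 hμ
      exact (Nat.cast_pos (α := ℝ)).2 (Nat.pos_of_ne_zero this)
    · exact Finset.prod_pos fun i hi => pow_pos (h i hi) _

theorem evN_pos {x : σ → ℝ} (hx : ∀ i, 0 < x i) {p : MvPolynomial σ ℕ} (hp : p ≠ 0) :
    0 < evN x p := by
  obtain ⟨μ, hμ⟩ := MvPolynomial.support_nonempty.2 hp
  exact evN_pos' (fun i => (hx i).le) hμ fun i _ => hx i

theorem evN_smul {R : Type} [CommSemiring R] (v : σ → R) (c : R) {p : MvPolynomial σ ℕ} {n : ℕ}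
    (hp : p.IsHomogeneous n) : evN (fun i => c * v i) p = c ^ n * evN v p := by
  unfold evN
  rw [eval₂_eq, eval₂_eq, Finset.mul_sum]
  refine Finset.sum_congr rfl fun μ hμ => ?_
  have hm : ∑ i ∈ μ.support, μ i = n := by
    have := hp (mem_support_iff.mp hμ)
    rw [Finsupp.weight_apply, Finsupp.sum] at this
    simpa using this
  have h2 : (∏ i ∈ μ.support, (c * v i) ^ μ i) = c ^ n * ∏ i ∈ μ.support, v i ^ μ i := by
    rw [← hm, ← Finset.prod_pow_eq_pow_sum, ← Finset.prod_mul_distrib]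
    exact Finset.prod_congr rfl fun i _ => mul_pow _ _ _
  rw [h2]
  ring

theorem evN_map {R S : Type} [CommSemiring R] [CommSemiring S] (f : R →+* S) (v : σ → R)
    (p : MvPolynomial σ ℕ) : f (evN v p) = evN (fun i => f (v i)) p := by
  unfold evN
  rw [hom_eval₂]
  congr 1
  ext n
  simp

theorem evN_cont (p : MvPolynomial σ ℕ) : Continuous fun v : σ → ℝ => evN v p := by
  unfold evN
  have : (fun v : σ → ℝ => eval₂ (Nat.castRingHom ℝ) v p) =
      fun v : σ → ℝ => eval v (map (Nat.castRingHom ℝ) p) := by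
    funext v
    rw [eval_map]
  rw [this]
  exact MvPolynomial.continuous_eval _

end

/-- values of positive elements -/
theorem posF_ev {d : ℕ} {f : Fd d} (hf : PosF f) {x : Fin d → ℝ} (hx : ∀ j, 0 < x j) :
    ∃ a, 0 < a ∧ Ev x f a := by
  obtain ⟨N, D, hN, hD, rfl⟩ := hf
  have h1 := evN_pos hx hN
  have h2 := evN_pos hx hD
  refine ⟨evN x N * (evN x D)⁻¹, by positivity, ?_⟩
  rw [div_eq_mul_inv]
  exact (Ev.evN (fun j => Ev.var j) N).mul ((Ev.evN (fun j => Ev.var j) D).inv h2.ne')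

/-- positive monomial change of variables -/
theorem mono_inv {n : ℕ} {A : Matrix (Fin n) (Fin n) ℤ} (hA : A.det = 1 ∨ A.det = -1)
    {y : Fin n → ℝ} (hy : ∀ k, 0 < y k) :
    ∃ x : Fin n → ℝ, (∀ j, 0 < x j) ∧ ∀ k, ∏ j, x j ^ A k j = y k := by
  have hu : IsUnit A.det := by
    rcases hA with h | h <;> rw [h]
    · exact isUnit_one
    · exact isUnit_one.neg
  have hAB : A * A⁻¹ = 1 := Matrix.mul_nonsing_inv A hu
  refine ⟨fun j => ∏ k, y k ^ (A⁻¹) j k, fun j => Finset.prod_pos fun k _ => zpow_pos (hy k) _, ?_⟩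
  intro k
  have h1 : ∏ j, (∏ l, y l ^ (A⁻¹) j l) ^ A k j = ∏ j, ∏ l, y l ^ (A k j * (A⁻¹) j l) := by
    refine Finset.prod_congr rfl fun j _ => ?_
    rw [← Finset.prod_zpow]
    refine Finset.prod_congr rfl fun l _ => ?_
    rw [← zpow_mul, mul_comm]
  have h2 : ∀ l, ∏ j, y l ^ (A k j * (A⁻¹) j l) = y l ^ ((A * A⁻¹) k l) := by
    intro l
    rw [Matrix.mul_apply]
    induction (Finset.univ : Finset (Fin n)) using Finset.induction_on with
    | empty => simp
    | insert a s ha ih =>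
      rw [Finset.prod_insert ha, Finset.sum_insert ha, zpow_add₀ (hy l).ne', ih]
  rw [h1, Finset.prod_comm]
  rw [Finset.prod_congr rfl fun l _ => h2 l, hAB]
  rw [Finset.prod_eq_single k]
  · simp
  · intro l _ hl
    rw [Matrix.one_apply_ne (Ne.symm hl), zpow_zero]
  · intro h
    exact absurd (Finset.mem_univ k) h

end PosGeom.H26
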