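import Pool.Agent.Helper26_ABCT.Ev

/-!
# NLIM: the facet is in the closure, and its points are limits of real points outside
-/

open MvPolynomial Topology

namespace PosGeom.H26

section

variable {ι : Type} [Fintype ι] {d : ℕ}

/-- the curve through the point of the facet: coordinates as real polynomials -/
noncomputable def crv (w : Fin d → ℝ) (c : ℝ) (L'' : ι → MvPolynomial (Fin (d + 1)) ℕ) (i : ι) :
    Polynomial ℝ :=
  Polynomial.C c * evN (Fin.cons Polynomial.X (fun j => Polynomial.C (w j)) :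
    Fin (d + 1) → Polynomial ℝ) (L'' i)

omit [Fintype ι] in
theorem crv_eval (w : Fin d → ℝ) (c : ℝ) (L'' : ι → MvPolynomial (Fin (d + 1)) ℕ) (i : ι) (s : ℝ) :
    (crv w c L'' i).eval s = c * evN (Fin.cons s w : Fin (d + 1) → ℝ) (L'' i) := by
  unfold crv
  rw [Polynomial.eval_mul, Polynomial.eval_C]
  congr 1
  have := evN_map (Polynomial.evalRingHom s) (Fin.cons Polynomial.X (fun j => Polynomial.C (w j)) :
    Fin (d + 1) → Polynomial ℝ) (L'' i)
  rw [Polynomial.coe_evalRingHom] at this
  rw [this]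
  congr 1
  funext k
  refine Fin.cases ?_ (fun j => ?_) k
  · simp
  · simp

/-- a polynomial vanishing on the positive reals -/
theorem poly_zero {p : Polynomial ℝ} (h : ∀ s : ℝ, 0 < s → p.eval s = 0) : p = 0 := by
  apply Polynomial.eq_zero_of_infinite_isRoot
  apply Set.Infinite.mono (s := Set.Ioi (0 : ℝ))
  · intro s hs
    exact h s hs
  · exact Set.Ioi_infinite 0

theorem cpoly_zero {p : Polynomial ℂ} (h : ∀ s : ℝ, 0 < s → p.eval (s : ℂ) = 0) : p = 0 := by
  apply Polynomial.eq_zero_of_infinite_isRoot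
  have : Set.Infinite ((fun s : ℝ => (s : ℂ)) '' Set.Ioi (0 : ℝ)) :=
    (Set.Ioi_infinite (0 : ℝ)).image (Complex.ofReal_injective.injOn)
  refine this.mono ?_
  rintro _ ⟨s, hs, rfl⟩
  exact h s hs

end

theorem nlim (hC : CposStmt) : NlimStmt := by
  intro ι _ d N N' A L'' m h κ a hN hN' hF
  suffices key : ∀ z ∈ N'.Z, z ∈ closure N.Z ∧ z ∈ closure {x | x ∈ N.var.RP ∧ x ∉ N.P} from
    ⟨fun z hz => (key z hz).1, fun z hz => (key z hz).2⟩
  rintro z ⟨τ, x', hτ, hx', hz⟩
  -- values at `x'`
  have hη : ∀ j, ∃ b, 0 < b ∧ Ev x' (h j) b := fun j => posF_ev (hF.hpos j) hx'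
  choose η hηpos hηev using hη
  obtain ⟨k0, hk0, hk0ev⟩ := posF_ev hF.κpos hx'
  set w : Fin d → ℝ := fun j => x' j * η j with hw
  have hwpos : ∀ j, 0 < w j := fun j => mul_pos (hx' j) (hηpos j)
  have hres : ∀ i, evN (Fin.cons 0 w : Fin (d + 1) → ℝ) (L'' i) = k0 * evN x' (N'.L i) := by
    intro i
    have e1 : Ev x' (evN (Fin.cons 0 (fun j => yv d j * h j) : Fin (d + 1) → Fd d) (L'' i))
        (evN (Fin.cons 0 w : Fin (d + 1) → ℝ) (L'' i)) := by
      apply Ev.evN
      intro k
      refine Fin.cases ?_ (fun j => ?_) k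
      · simp only [Fin.cons_zero]; exact Ev.zero
      · simp only [Fin.cons_succ]; exact (Ev.var j).mul (hηev j)
    have e2 : Ev x' (κ * N'.LF i) (k0 * evN x' (N'.L i)) :=
      hk0ev.mul (Ev.evN (fun j => Ev.var j) (N'.L i))
    rw [hF.res i] at e1
    exact e1.unique e2
  set c : ℝ := τ / k0 with hc
  have hcpos : 0 < c := div_pos hτ hk0
  -- the curve
  set X : ℝ → ι → ℝ := fun s i => c * evN (Fin.cons s w : Fin (d + 1) → ℝ) (L'' i) with hX
  have hX0 : X 0 = z := by
    funext i
    rw [hX]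
    simp only
    rw [hres i, hz i, hc]
    field_simp
  have hXc : Continuous X := by
    rw [hX]
    apply continuous_pi
    intro i
    refine continuous_const.mul ?_
    refine (evN_cont (L'' i)).comp ?_
    apply continuous_pi
    intro k
    refine Fin.cases ?_ (fun j => ?_) k
    · simp only [Fin.cons_zero]; exact continuous_id
    · simp only [Fin.cons_succ]; exact continuous_const
  -- positive parameters
  have hpar : ∀ s : ℝ, 0 < s → ∃ (x : Fin (d + 1) → ℝ) (t : ℝ), (∀ j, 0 < x j) ∧ 0 < t ∧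
      (∀ i, X s i = t * evN x (N.L i)) ∧ ∏ j, x j ^ A 0 j = s := by
    intro s hs
    have hy : ∀ k : Fin (d + 1), 0 < (Fin.cons s w : Fin (d + 1) → ℝ) k := by
      intro k
      refine Fin.cases ?_ (fun j => ?_) k
      · simp only [Fin.cons_zero]; exact hs
      · simp only [Fin.cons_succ]; exact hwpos j
    obtain ⟨x, hx, hxy⟩ := mono_inv hF.det hy
    set u : ℝ := ∏ j, x j ^ m j with hu
    have hupos : 0 < u := Finset.prod_pos fun j _ => zpow_pos (hx j) _
    have hid : ∀ i, evN x (N.L i) = u * evN (Fin.cons s w : Fin (d + 1) → ℝ) (L'' i) := by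
      intro i
      have e1 : Ev x (N.LF i) (evN x (N.L i)) := Ev.evN (fun j => Ev.var j) (N.L i)
      have e2 : Ev x ((∏ j, yv (d + 1) j ^ m j) *
          evN (fun k => ∏ j, yv (d + 1) j ^ A k j) (L'' i))
          (u * evN (Fin.cons s w : Fin (d + 1) → ℝ) (L'' i)) := by
        refine Ev.mul (Ev.prod _ fun j _ => (Ev.var j).zpow (hx j).ne' _) ?_
        apply Ev.evN
        intro k
        rw [← hxy k]
        exact Ev.prod _ fun j _ => (Ev.var j).zpow (hx j).ne' _
      rw [hF.eq i] at e1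
      exact e1.unique e2
    refine ⟨x, c / u, hx, div_pos hcpos hupos, ?_, ?_⟩
    · intro i
      rw [hid i, hX]
      simp only
      field_simp
    · rw [hxy 0, Fin.cons_zero]
  have hXZ : ∀ s : ℝ, 0 < s → X s ∈ N.Z := by
    intro s hs
    obtain ⟨x, t, hx, ht, e, -⟩ := hpar s hs
    exact ⟨t, x, ht, hx, e⟩
  have hlim : Filter.Tendsto X (𝓝[>] 0) (𝓝 z) := by
    rw [← hX0]
    exact hXc.continuousAt.tendsto.mono_left nhdsWithin_le_nhds
  have hlim' : Filter.Tendsto X (𝓝[<] 0) (𝓝 z) := by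
    rw [← hX0]
    exact hXc.continuousAt.tendsto.mono_left nhdsWithin_le_nhds
  refine ⟨mem_closure_of_tendsto hlim (eventually_nhdsWithin_of_forall fun s hs => hXZ s hs), ?_⟩
  -- equations
  have hI : ∀ F ∈ N.var.I, ∀ s : ℝ, aeval (fun i => ((X s i : ℝ) : ℂ)) F = 0 := by
    intro F hFI
    set p : ι → Polynomial ℂ := fun i => (crv w c L'' i).map Complex.ofRealHom with hp
    have hev : ∀ s : ℝ, (aeval p F : Polynomial ℂ).eval (s : ℂ) =
        aeval (fun i => ((X s i : ℝ) : ℂ)) F := by
      intro s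
      have e1 : (aeval p F : Polynomial ℂ).eval (s : ℂ) =
          aeval (fun i => (p i).eval (s : ℂ)) F := by
        have := comp_aeval_apply (f := p) (φ := (Polynomial.aeval (s : ℂ) :
          Polynomial ℂ →ₐ[ℂ] ℂ)) F
        rw [Polynomial.coe_aeval_eq_eval] at this
        exact this
      rw [e1]
      congr 2
      funext i
      rw [hp]
      simp only
      have e2 := Polynomial.eval_map_apply (f := Complex.ofRealHom) (p := crv w c L'' i) s
      have e3 : Complex.ofRealHom s = (s : ℂ) := rfl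
      rw [e3] at e2
      rw [e2, crv_eval]
      rfl
    have hzero : (aeval p F : Polynomial ℂ) = 0 := by
      apply cpoly_zero
      intro s hs
      rw [hev s]
      exact (((hC ι (d + 1) N hN).1 (X s)).1 (hXZ s hs)).1.2 F hFI
    intro s
    rw [← hev s, hzero, Polynomial.eval_zero]
  -- the regular function
  obtain ⟨n, P, Q, hP, hQ, ⟨μ, hμ, hμM⟩, hPQ⟩ := hF.reg 0
  have hPQs : ∀ s : ℝ, evN (X s) Q * s = evN (X s) P := by
    set p : ι → Polynomial ℝ := fun i => crv w c L'' i with hp
    have hev : ∀ (R : MvPolynomial ι ℕ) (s : ℝ), (evN p R).eval s = evN (X s) R := by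
      intro R s
      have := evN_map (Polynomial.evalRingHom s) p R
      rw [Polynomial.coe_evalRingHom] at this
      rw [this]
      congr 1
      funext i
      exact crv_eval w c L'' i s
    have hzero : evN p Q * Polynomial.X - evN p P = 0 := by
      apply poly_zero
      intro s hs
      rw [Polynomial.eval_sub, Polynomial.eval_mul, Polynomial.eval_X, hev, hev]
      obtain ⟨x, t, hx, ht, e, es⟩ := hpar s hs
      have e1 : Ev x (evN N.LF Q * ∏ j, yv (d + 1) j ^ A 0 j)
          (evN (fun i => evN x (N.L i)) Q * s) := by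
        rw [← es]
        exact (Ev.evN (fun i => Ev.evN (fun j => Ev.var j) (N.L i)) Q).mul
          (Ev.prod _ fun j _ => (Ev.var j).zpow (hx j).ne' _)
      have e2 : Ev x (evN N.LF P) (evN (fun i => evN x (N.L i)) P) :=
        Ev.evN (fun i => Ev.evN (fun j => Ev.var j) (N.L i)) P
      rw [hPQ] at e1
      have e3 := e1.unique e2
      have e4 : X s = fun i => t * evN x (N.L i) := funext e
      rw [e4, evN_smul _ _ hQ, evN_smul _ _ hP, ← e3]
      ring
    intro s
    have := congrArg (Polynomial.eval s) hzero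
    rw [Polynomial.eval_sub, Polynomial.eval_mul, Polynomial.eval_X, hev, hev,
      Polynomial.eval_zero] at this
    linarith
  have hznn : ∀ i, 0 ≤ z i := fun i => by
    rw [hz i]
    exact mul_nonneg hτ.le (evN_nonneg (fun j => (hx' j).le) _)
  have hQz : 0 < evN z Q := by
    refine evN_pos' hznn hμ fun i hi => ?_
    rw [hz i]
    exact mul_pos hτ (evN_pos hx' (hμM i hi))
  have hQev : ∀ᶠ s in 𝓝[<] (0 : ℝ), 0 < evN (X s) Q := by
    have h1 : Filter.Tendsto (fun s => evN (X s) Q) (𝓝[<] 0) (𝓝 (evN z Q)) :=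
      ((evN_cont Q).tendsto z).comp hlim'
    exact h1.eventually (lt_mem_nhds hQz)
  have hne : ∀ᶠ s in 𝓝[<] (0 : ℝ), X s ≠ 0 := by
    have hz0 : z ≠ 0 := by
      obtain ⟨i, hi⟩ := N'.ne
      intro h0
      have : 0 < z i := by
        rw [hz i]
        exact mul_pos hτ (evN_pos hx' hi)
      rw [h0] at this
      exact lt_irrefl _ this
    exact hlim'.eventually_ne hz0
  -- sign on the closure
  have hsign : ∀ y ∈ closure N.Z, 0 ≤ evN y P * evN y Q := by
    have hcl : IsClosed {y : ι → ℝ | 0 ≤ evN y P * evN y Q} :=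
      isClosed_le continuous_const ((evN_cont P).mul (evN_cont Q))
    intro y hy
    refine closure_minimal ?_ hcl hy
    rintro v ⟨t, x, ht, hx, e⟩
    have hv : ∀ i, 0 ≤ v i := fun i => by
      rw [e i]
      exact mul_nonneg ht.le (evN_nonneg (fun j => (hx j).le) _)
    exact mul_nonneg (evN_nonneg hv P) (evN_nonneg hv Q)
  refine mem_closure_of_tendsto hlim' ?_
  filter_upwards [hQev, hne, self_mem_nhdsWithin] with s hs1 hs2 hs3
  have hs0 : s < 0 := hs3
  refine ⟨⟨hs2, fun F hFI => hI F hFI s⟩, ?_⟩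
  have hneg : evN (X s) P * evN (X s) Q < 0 := by
    rw [← hPQs s]
    have : evN (X s) Q * s < 0 := mul_neg_of_pos_of_neg hs1 hs0
    exact mul_neg_of_neg_of_pos this hs1
  rintro ⟨-, hcl | hcl⟩
  · exact absurd (hsign _ hcl) (not_le.2 hneg)
  · have h1 := hsign _ hcl
    have e4 : (-(X s) : ι → ℝ) = fun i => (-1) * X s i := by
      funext i
      simp
    rw [e4, evN_smul _ _ hP, evN_smul _ _ hQ] at h1
    have h2 : (-1 : ℝ) ^ n * evN (X s) P * ((-1) ^ n * evN (X s) Q) =
        evN (X s) P * evN (X s) Q := by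
      have : ((-1 : ℝ) ^ n) * (-1) ^ n = 1 := by
        rw [← mul_pow]; simp
      calc _ = (((-1 : ℝ) ^ n) * (-1) ^ n) * (evN (X s) P * evN (X s) Q) := by ring
        _ = _ := by rw [this, one_mul]
    rw [h2] at h1
    exact absurd h1 (not_le.2 hneg)

end PosGeom.H26
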