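import Pool.Agent.Helper26_ABCT.Cpos
import Pool.Agent.Helper26_ABCT.Nlim

/-!
# NVAL: values of the adapted coordinates in the cell and on the facet
-/

open MvPolynomial Topology

namespace PosGeom.H26

section

variable {ι : Type} [Fintype ι] {d : ℕ}

omit [Fintype ι] in
/-- the curve through a point of the facet -/
theorem curve {N : NCell ι (d + 1)} {N' : NCell ι d} {A L'' m h κ a}
    (hF : NFac N N' A L'' m h κ a) {z : ι → ℝ} {τ : ℝ} {x' : Fin d → ℝ} (hτ : 0 < τ)
    (hx' : ∀ j, 0 < x' j) (hz : ∀ i, z i = τ * evN x' (N'.L i)) :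
    ∃ (η : Fin d → ℝ) (X : ℝ → ι → ℝ), (∀ j, 0 < η j) ∧ (∀ j, Ev x' (h j) (η j)) ∧
      Continuous X ∧ X 0 = z ∧ ∀ s : ℝ, 0 < s → ∃ (x : Fin (d + 1) → ℝ) (t : ℝ), (∀ j, 0 < x j) ∧
        0 < t ∧ (∀ i, X s i = t * evN x (N.L i)) ∧
        ∀ k, ∏ j, x j ^ A k j = (Fin.cons s (fun j => x' j * η j) : Fin (d + 1) → ℝ) k := by
  have hη : ∀ j, ∃ b, 0 < b ∧ Ev x' (h j) b := fun j => posF_ev (hF.hpos j) hx'
  choose η hηpos hηev using hη
  obtain ⟨k0, hk0, hk0ev⟩ := posF_ev hF.κpos hx'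
  set w : Fin d → ℝ := fun j => x' j * η j with hw
  have hwpos : ∀ j, 0 < w j := fun j => mul_pos (hx' j) (hηpos j)
  have hres : ∀ i, evN (Fin.cons 0 w : Fin (d + 1) → ℝ) (L'' i) = k0 * evN x' (N'.L i) := by
    intro i
    have e1 : Ev x' (evN (Fin.cons 0 (fun j => yv d j * h j) : Fin (d + 1) → Fd d) (L'' i))
        (evN (Fin.cons 0 w : Fin (d + 1) → ℝ) (L'' i)) := by
      apply Ev.evN
      intro k
      refine Fin.cases ?_ (fun j => ?_) k
      · simp only [Fin.cons_zero]; exact Ev.zero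
      · simp only [Fin.cons_succ]; exact (Ev.var j).mul (hηev j)
    have e2 : Ev x' (κ * N'.LF i) (k0 * evN x' (N'.L i)) :=
      hk0ev.mul (Ev.evN (fun j => Ev.var j) (N'.L i))
    rw [hF.res i] at e1
    exact e1.unique e2
  set c : ℝ := τ / k0 with hc
  have hcpos : 0 < c := div_pos hτ hk0
  refine ⟨η, fun s i => c * evN (Fin.cons s w : Fin (d + 1) → ℝ) (L'' i), hηpos, hηev, ?_, ?_, ?_⟩
  · apply continuous_pi
    intro i
    refine continuous_const.mul ?_
    refine (evN_cont (L'' i)).comp ?_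
    apply continuous_pi
    intro k
    refine Fin.cases ?_ (fun j => ?_) k
    · simp only [Fin.cons_zero]; exact continuous_id
    · simp only [Fin.cons_succ]; exact continuous_const
  · funext i
    simp only
    rw [hres i, hz i, hc]
    field_simp
  · intro s hs
    have hy : ∀ k : Fin (d + 1), 0 < (Fin.cons s w : Fin (d + 1) → ℝ) k := by
      intro k
      refine Fin.cases ?_ (fun j => ?_) k
      · simp only [Fin.cons_zero]; exact hs
      · simp only [Fin.cons_succ]; exact hwpos j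
    obtain ⟨x, hx, hxy⟩ := mono_inv hF.det hy
    set u : ℝ := ∏ j, x j ^ m j with hu
    have hupos : 0 < u := Finset.prod_pos fun j _ => zpow_pos (hx j) _
    have hid : ∀ i, evN x (N.L i) = u * evN (Fin.cons s w : Fin (d + 1) → ℝ) (L'' i) := by
      intro i
      have e1 : Ev x (N.LF i) (evN x (N.L i)) := Ev.evN (fun j => Ev.var j) (N.L i)
      have e2 : Ev x ((∏ j, yv (d + 1) j ^ m j) *
          evN (fun k => ∏ j, yv (d + 1) j ^ A k j) (L'' i))
          (u * evN (Fin.cons s w : Fin (d + 1) → ℝ) (L'' i)) := by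
        refine Ev.mul (Ev.prod _ fun j _ => (Ev.var j).zpow (hx j).ne' _) ?_
        apply Ev.evN
        intro k
        rw [← hxy k]
        exact Ev.prod _ fun j _ => (Ev.var j).zpow (hx j).ne' _
      rw [hF.eq i] at e1
      exact e1.unique e2
    refine ⟨x, c / u, hx, div_pos hcpos hupos, ?_, hxy⟩
    intro i
    rw [hid i]
    simp only
    field_simp

omit [Fintype ι] in
/-- real version of a polynomial with natural coefficients -/
theorem ev_map_real (z : ι → ℝ) (P : MvPolynomial ι ℕ) :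
    eval z (map (Nat.castRingHom ℝ) P) = evN z P := by
  rw [eval_map]
  rfl

omit [Fintype ι] in
theorem aeval_map_nat {R : Type} [CommSemiring R] [Algebra ℂ R] (v : ι → R)
    (P : MvPolynomial ι ℕ) : aeval v (map (Nat.castRingHom ℂ) P) = evN v P := by
  unfold evN
  rw [aeval_def, eval₂_map]
  congr 1
  ext n
  simp

omit [Fintype ι] in
theorem map_real_nat (P : MvPolynomial ι ℕ) :
    map Complex.ofRealHom (map (Nat.castRingHom ℝ) P) = map (Nat.castRingHom ℂ) P := by
  rw [map_map]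
  congr 1

/-- quotients of forms with natural coefficients in the function field -/
theorem reg_frac (hCf : CfldStmt) (hSg : SgenStmt) {N : NCell ι d} (hN : N.Good)
    {e : N.var.K ≃ₐ[ℂ] Fd d} (hE : N.IsE e) {f : N.var.K} {g : Fd d} (hfg : e f = g) {n : ℕ}
    {P Q : MvPolynomial ι ℕ} (hP : P.IsHomogeneous n) (hQ : Q.IsHomogeneous n)
    (hPQ : evN N.LF Q * g = evN N.LF P) :
    (f : N.var.Frac) * evN N.var.gen Q = evN N.var.gen P := by
  obtain ⟨m, F, G, hF, hG, hG0, e1, e2⟩ := (hE f g).2 hfg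
  have hI := (hCf ι d N hN).2.2.2
  have hgen := (hSg ι N.var).1
  set Pc := map (Nat.castRingHom ℂ) P with hPc
  set Qc := map (Nat.castRingHom ℂ) Q with hQc
  have hPh : Pc.IsHomogeneous n := hP.map _
  have hQh : Qc.IsHomogeneous n := hQ.map _
  have h1 : aeval N.LF (Qc * F - Pc * G) = 0 := by
    rw [map_sub, map_mul, map_mul, hPc, hQc, aeval_map_nat, aeval_map_nat, ← e2, ← hPQ]
    ring
  have h2 : Qc * F - Pc * G ∈ N.var.I :=
    (hI _ (n + m) ((hQh.mul hF).sub (hPh.mul hG))).1 h1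
  have h3 := (hgen _).2 h2
  rw [map_sub, map_mul, map_mul, hPc, hQc, aeval_map_nat, aeval_map_nat, ← e1] at h3
  have hG1 : aeval N.var.gen G ≠ 0 := by
    intro h
    exact hG0 ((hI G m hG).2 ((hgen G).1 h))
  have h4 : ((f : N.var.Frac) * evN N.var.gen Q - evN N.var.gen P) * aeval N.var.gen G = 0 := by
    rw [← h3]; ring
  rcases mul_eq_zero.1 h4 with h | h
  · exact sub_eq_zero.1 h
  · exact absurd h hG1

omit [Fintype ι] in
theorem e_chA {N : NCell ι (d + 1)} (e : N.var.K ≃ₐ[ℂ] Fd (d + 1))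
    (A : Matrix (Fin (d + 1)) (Fin (d + 1)) ℤ) (k : Fin (d + 1)) :
    e (N.chA e A k) = ∏ j, yv (d + 1) j ^ A k j := by
  unfold NCell.chA NCell.ch
  rw [map_prod]
  refine Finset.prod_congr rfl fun j _ => ?_
  rw [map_zpow₀, AlgEquiv.apply_symm_apply]

omit [Fintype ι] in
/-- real values of quotients of forms with natural coefficients -/
theorem rval_of {N : NCell ι d} {f : N.var.K} {n : ℕ} {P Q : MvPolynomial ι ℕ}
    (hP : P.IsHomogeneous n) (hQ : Q.IsHomogeneous n)
    (hf : (f : N.var.Frac) * evN N.var.gen Q = evN N.var.gen P) {z : ι → ℝ} {b : ℝ}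
    (hQz : evN z Q ≠ 0) (hb : b * evN z Q = evN z P) : N.var.RVal z f b := by
  refine ⟨n, map (Nat.castRingHom ℝ) P, map (Nat.castRingHom ℝ) Q, hP.map _, hQ.map _, ?_, ?_, ?_⟩
  · rw [ev_map_real]; exact hQz
  · rw [map_real_nat, map_real_nat, aeval_map_nat, aeval_map_nat]; exact hf
  · rw [ev_map_real, ev_map_real]; exact hb

/-- real values of polynomials with natural coefficients -/
theorem rval_evN (hSr : SrealStmt) {V : PVar ι} {z : ι → ℝ} (hz : z ∈ V.RP) {σ : Type}
    {g : σ → V.K} {b : σ → ℝ} (h : ∀ i, V.RVal z (g i) (b i)) (p : MvPolynomial σ ℕ) :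
    V.RVal z (evN g p) (evN b p) := by
  obtain ⟨-, -, hc, hadd, hmul, -, -, -⟩ := hSr ι V z hz
  unfold evN
  induction p using MvPolynomial.induction_on with
  | C n =>
    rw [eval₂_C, eval₂_C]
    have := hc (n : ℝ)
    have e : algebraMap ℂ V.K (((n : ℝ) : ℂ)) = (n : V.K) := by
      rw [Complex.ofReal_natCast, map_natCast]
    rw [e] at this
    exact this
  | add p q hp hq =>
    rw [eval₂_add, eval₂_add]
    exact hadd _ _ _ _ hp hq
  | mul_X p i hp =>
    rw [eval₂_mul, eval₂_mul, eval₂_X, eval₂_X]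
    exact hmul _ _ _ _ hp (h i)

end

theorem nval (hCf : CfldStmt) (hSg : SgenStmt) (hSr : SrealStmt) (hC : CposStmt)
    (hFr : CfrmStmt) : NvalStmt := by
  intro ι _ d N N' A L'' m h κ a hN hN' hF e e' he he'
  have hMM : ∀ i ∈ N'.M, i ∈ N.M := fun i hi => hF.sub.1 hi
  -- points of `N`
  have key1 : ∀ z ∈ N.Z, ∀ k, ∃ b, 0 < b ∧ N.var.RVal z (N.chA e A k) b := by
    rintro z ⟨τ, x, hτ, hx, hz⟩ k
    obtain ⟨n, P, Q, hP, hQ, ⟨μ, hμ, hμM⟩, hPQ⟩ := hF.reg k
    have hf := reg_frac hCf hSg hN he (e_chA e A k) hP hQ hPQ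
    refine ⟨∏ j, x j ^ A k j, Finset.prod_pos fun j _ => zpow_pos (hx j) _, ?_⟩
    have hznn : ∀ i, 0 ≤ z i := fun i => by
      rw [hz i]
      exact mul_nonneg hτ.le (evN_nonneg (fun j => (hx j).le) _)
    have hQz : 0 < evN z Q := by
      refine evN_pos' hznn hμ fun i hi => ?_
      rw [hz i]
      exact mul_pos hτ (evN_pos hx (hMM i (hμM i hi)))
    refine rval_of hP hQ hf hQz.ne' ?_
    have e1 : Ev x (evN N.LF Q * ∏ j, yv (d + 1) j ^ A k j)
        (evN (fun i => evN x (N.L i)) Q * ∏ j, x j ^ A k j) :=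
      (Ev.evN (fun i => Ev.evN (fun j => Ev.var j) (N.L i)) Q).mul
        (Ev.prod _ fun j _ => (Ev.var j).zpow (hx j).ne' _)
    have e2 : Ev x (evN N.LF P) (evN (fun i => evN x (N.L i)) P) :=
      Ev.evN (fun i => Ev.evN (fun j => Ev.var j) (N.L i)) P
    rw [hPQ] at e1
    have e3 := e1.unique e2
    have e4 : z = fun i => τ * evN x (N.L i) := funext hz
    rw [e4, evN_smul _ _ hQ, evN_smul _ _ hP, ← e3]
    ring
  -- points of `N'`
  have key2 : ∀ z ∈ N'.Z, N.var.RVal z (N.chA e A 0) 0 ∧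
      ∀ k : Fin d, ∃ b, 0 < b ∧ N.var.RVal z (N.chA e A k.succ) b ∧
        N'.var.RVal z (N'.chT e' h k) b := by
    rintro z ⟨τ, x', hτ, hx', hz⟩
    obtain ⟨η, X, hη, hηev, hXc, hX0, hXs⟩ := curve hF hτ hx' hz
    set w : Fin d → ℝ := fun j => x' j * η j with hw
    have hznn : ∀ i, 0 ≤ z i := fun i => by
      rw [hz i]
      exact mul_nonneg hτ.le (evN_nonneg (fun j => (hx' j).le) _)
    have hval : ∀ k, N.var.RVal z (N.chA e A k) ((Fin.cons 0 w : Fin (d + 1) → ℝ) k) := by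
      intro k
      obtain ⟨n, P, Q, hP, hQ, ⟨μ, hμ, hμM⟩, hPQ⟩ := hF.reg k
      have hf := reg_frac hCf hSg hN he (e_chA e A k) hP hQ hPQ
      have hQz : 0 < evN z Q := by
        refine evN_pos' hznn hμ fun i hi => ?_
        rw [hz i]
        exact mul_pos hτ (evN_pos hx' (hμM i hi))
      refine rval_of hP hQ hf hQz.ne' ?_
      have hs : ∀ s : ℝ, 0 < s →
          (Fin.cons s w : Fin (d + 1) → ℝ) k * evN (X s) Q = evN (X s) P := by
        intro s hs
        obtain ⟨x, t, hx, ht, e5, es⟩ := hXs s hs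
        have e1 : Ev x (evN N.LF Q * ∏ j, yv (d + 1) j ^ A k j)
            (evN (fun i => evN x (N.L i)) Q * (Fin.cons s w : Fin (d + 1) → ℝ) k) := by
          rw [← es k]
          exact (Ev.evN (fun i => Ev.evN (fun j => Ev.var j) (N.L i)) Q).mul
            (Ev.prod _ fun j _ => (Ev.var j).zpow (hx j).ne' _)
        have e2 : Ev x (evN N.LF P) (evN (fun i => evN x (N.L i)) P) :=
          Ev.evN (fun i => Ev.evN (fun j => Ev.var j) (N.L i)) P
        rw [hPQ] at e1
        have e3 := e1.unique e2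
        have e4 : X s = fun i => t * evN x (N.L i) := funext e5
        rw [e4, evN_smul _ _ hQ, evN_smul _ _ hP, ← e3]
        ring
      have c1 : Continuous fun s : ℝ => (Fin.cons s w : Fin (d + 1) → ℝ) k := by
        refine Fin.cases ?_ (fun j => ?_) k
        · simp only [Fin.cons_zero]; exact continuous_id
        · simp only [Fin.cons_succ]; exact continuous_const
      have c2 : Continuous fun s : ℝ => (Fin.cons s w : Fin (d + 1) → ℝ) k * evN (X s) Q :=
        c1.mul ((evN_cont Q).comp hXc)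
      have c3 : Continuous fun s : ℝ => evN (X s) P := (evN_cont P).comp hXc
      have l1 : Filter.Tendsto (fun s : ℝ => evN (X s) P) (𝓝[>] 0) (𝓝 (evN (X 0) P)) :=
        (c3.tendsto 0).mono_left nhdsWithin_le_nhds
      have l2 : Filter.Tendsto (fun s : ℝ => (Fin.cons s w : Fin (d + 1) → ℝ) k * evN (X s) Q)
          (𝓝[>] 0) (𝓝 ((Fin.cons 0 w : Fin (d + 1) → ℝ) k * evN (X 0) Q)) :=
        (c2.tendsto 0).mono_left nhdsWithin_le_nhds
      have l3 : Filter.Tendsto (fun s : ℝ => evN (X s) P) (𝓝[>] 0)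
          (𝓝 ((Fin.cons 0 w : Fin (d + 1) → ℝ) k * evN (X 0) Q)) := by
        refine l2.congr' ?_
        filter_upwards [self_mem_nhdsWithin] with s hs'
        exact hs s hs'
      have := tendsto_nhds_unique l3 l1
      rw [hX0] at this
      exact this
    refine ⟨by simpa using hval 0, ?_⟩
    intro k
    refine ⟨w k, mul_pos (hx' k) (hη k), by simpa using hval k.succ, ?_⟩
    obtain ⟨hzRP, -, hch⟩ := hFr ι d N' e' hN' he' z τ x' hτ.ne' hx' hz
    obtain ⟨-, -, -, -, hmul, hinv, -, -⟩ := hSr ι N'.var z hzRP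
    obtain ⟨Nh, Dh, hNh, hDh, hh⟩ := hF.hpos k
    have hev : η k = evN x' Nh * (evN x' Dh)⁻¹ := by
      have h1 := hηev k
      have h2 : Ev x' (h k) (evN x' Nh * (evN x' Dh)⁻¹) := by
        rw [hh, div_eq_mul_inv]
        exact (Ev.evN (fun j => Ev.var j) Nh).mul
          ((Ev.evN (fun j => Ev.var j) Dh).inv (evN_pos hx' hDh).ne')
      exact h1.unique h2
    have hT : N'.chT e' h k = N'.ch e' k * (evN (N'.ch e') Nh * (evN (N'.ch e') Dh)⁻¹) := by
      unfold NCell.chT
      rw [map_mul, hh, map_div₀]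
      have h1 : ∀ p : MvPolynomial (Fin d) ℕ, e'.symm (evN (yv d) p) = evN (N'.ch e') p := by
        intro p
        exact evN_map (e'.symm : Fd d →+* N'.var.K) (yv d) p
      rw [h1, h1, div_eq_mul_inv]
      rfl
    rw [hT]
    have hwk : w k = x' k * (evN x' Nh * (evN x' Dh)⁻¹) := by
      rw [← hev]
    rw [hwk]
    refine hmul _ _ _ _ (hch k) (hmul _ _ _ _ (rval_evN hSr hzRP hch Nh) ?_)
    exact hinv _ _ (rval_evN hSr hzRP hch Dh) (evN_pos hx' hDh).ne'
  have neg1 : ∀ {V : PVar ι} {z : ι → ℝ} {f : V.K} {b : ℝ}, -z ∈ V.RP → V.RVal (-z) f b →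
      V.RVal z f b := by
    intro V z f b hz hf
    have := (hSr ι V (-z) hz).2.2.2.2.2.2.1 f b hf (-1) (by norm_num)
    simpa using this
  refine ⟨?_, ?_⟩
  · rintro z (hz | hz) k
    · exact key1 z hz k
    · obtain ⟨b, hb, hr⟩ := key1 (-z) hz k
      exact ⟨b, hb, neg1 (((hC ι (d + 1) N hN).1 _).1 hz).1 hr⟩
  · rintro z (hz | hz)
    · exact key2 z hz
    · obtain ⟨h0, hk⟩ := key2 (-z) hz
      have hne : -z ≠ 0 := (((hC ι d N' hN').1 _).1 hz).1.1
      have hRP : -z ∈ N.var.RP :=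
        ((hC ι (d + 1) N hN).2.2 (-z) ((nlim hC ι d N N' A L'' m h κ a hN hN' hF).1 hz) hne).1
      have hRP' : -z ∈ N'.var.RP := (((hC ι d N' hN').1 _).1 hz).1
      refine ⟨neg1 hRP h0, fun k => ?_⟩
      obtain ⟨b, hb, h1, h2⟩ := hk k
      exact ⟨b, hb, neg1 hRP h1, neg1 hRP' h2⟩

end PosGeom.H26
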